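import Pool.Agent.N830.PS.Blocks
import Pool.Agent.R837.FQ.Segre
import Pool.Agent.R837.FQ.Linear
import Pool.Agent.R837.FQ.User
import Pool.Agent.Y374.PF.Degree

/-!
# Section rings in Pfaffian, symmetric and generic determinantal formats of arbitrary rank

`R = k[x₁, …, x_N]/I` with positive weights `w i` and a diagonal action of a finite group `G`. The
zero set of `I` is given by finitely many conditions of the following kinds, which may be mixed, each
of them imposed on semi-invariant forms of positive degrees in place of the coordinates.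

* `alternating`: an alternating matrix of any size `m` has rank at most `2s` (`2s < m`);
* `symmetric`: a symmetric matrix of odd size `m` has rank at most `2s` (`2s < m`);
* `generic`: a matrix of size `n` has rank at most `s` (`s < n`; one equation for `n = 1`);
* `spinor`: a form `x`, an alternating matrix `Y` of size 5 and a vector `z` of length 5 with
  `x zᵢ = (-1)^i Pf_i(Y)` and `Y z = 0` (the cone over the spinor variety `OG(5, 10)` in `ℙ¹⁵`);
* `cayley`: matrices `A₀, A₁, A₂` of size 3 with `adj A_t = A_{t+1} A_{t+2}` (the cone over the Cayley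
  plane in `ℙ²⁶`);
* `tensor`: a tensor of format `n × ⋯ × n` of rank at most one (`ℙ^{n-1} × ⋯ × ℙ^{n-1}`);
* `linear`: equations which vanish on given coordinate subspaces.

The entries of the alternating and the symmetric matrices have the degrees `e i + e j + t`, and those
of the generic matrices have the degrees `e i + f j`. Let `top` be the sum of the numbers
`(m - 1 - 2s) (∑ e + m t / 2)` for the alternating, `(m + 1 - 2s) (∑ e + m t / 2)` for the symmetric
and `(n - s) (∑ e + ∑ f)` for the generic matrices, `(∑ degrees) / 2` for the spinor variety,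
`(∑ degrees + degree of the cubic form) / 2` for the Cayley plane, `(n^(m-1) - 1) ∑ a` for the
tensors of order `m` whose entries have the degrees `a 1 i₁ + ⋯ + a m iₘ`, and for the last kind the
mean of the sums of the degrees of the coordinates outside of the subspaces. In the first six cases,
if `I` is generated by the equations and has the expected codimension, then `R` is Gorenstein and
`a(R) = top - ∑ w i`. If `S = ⨁ₘ (R_{hm})^G` is a section ring and `top < ∑ w i`, then `S₁ ≠ 0`; if
`h = 1`, then `dim S₁ ≥ ∑ w i - top`.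

Idea of the proof. An element of `G × μ_∞` whose character on `S₁` is not trivial has no fixed line
on the cone. On the subspace of the fixed variables the entries of the matrix of a nontrivial weight
vanish; the others are the edges (and loops) of a graph on the index set in which the end vertices of
a path with three edges are adjacent. The rows and columns of a set `B` of vertices which can be
matched can be filled in freely with a matrix of rank `#B`; so the number of fixed variables is at
most the number of the edges outside of `B`. A greedy choice shows that `B`, of size `2s`, can be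
taken to meet an `s/h`-th part of the edges (`m = 2h + 1` or `m = 2h + 2`), unless the graph has a
perfect matching; then the Pfaffian or the determinant has the trivial weight, and this makes up for
the one missing edge. The inequality is averaged over the group. The engine for the last four kinds is
that of `HomogeneousFormats`.
-/

set_option autoImplicit false

namespace Pool.Agent.Results.MP_954e53_ag.PfaffianAndSymmetricFormats

open MvPolynomial Finset Pool.Agent.TH144.NV Pool.Agent.Y374.PF

section blocks

variable {k : Type} [Field k] {G : Type} [Group G] {N : ℕ} (w : Fin N → ℕ)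
  (α : Fin N → G →* kˣ)

/-- `f` is homogeneous of degree `d > 0`, and `G` acts on it by the character `χ`. -/
structure Form (f : MvPolynomial (Fin N) k) (d : ℕ) (χ : G →* kˣ) : Prop where
  pos : 0 < d
  homogeneous : IsWeightedHomogeneous w f d
  semi : ∀ g, Pool.Agent.TH144.NV.act (fun i => (α i g : k)) f = C (χ g : k) * f

/-- An alternating matrix of size `m` whose entries above the diagonal are forms of the degrees
`e i + e j + t` and of the characters `ψ i ψ j ω`. -/
structure Alternating where
  m : ℕ
  s : ℕ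
  s_lt : 2 * s < m
  M : Matrix (Fin m) (Fin m) (MvPolynomial (Fin N) k)
  e : Fin m → ℤ
  t : ℤ
  ψ : Fin m → G →* kˣ
  ω : G →* kˣ
  d : Fin m → Fin m → ℕ
  degree : ∀ i j, i < j → (d i j : ℤ) = e i + e j + t
  form : ∀ i j, i < j → Form w α (M i j) (d i j) (ψ i * ψ j * ω)
  diag : ∀ i, M i i = 0
  alternating : ∀ i j, M j i = -M i j

/-- A symmetric matrix of odd size `m` whose entries are forms of the degrees `e i + e j + t` and of
the characters `ψ i ψ j ω`. -/
structure Symmetric where
  m : ℕ
  odd : Odd m
  s : ℕ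
  s_lt : 2 * s < m
  M : Matrix (Fin m) (Fin m) (MvPolynomial (Fin N) k)
  e : Fin m → ℤ
  t : ℤ
  ψ : Fin m → G →* kˣ
  ω : G →* kˣ
  d : Fin m → Fin m → ℕ
  degree : ∀ i j, (d i j : ℤ) = e i + e j + t
  form : ∀ i j, Form w α (M i j) (d i j) (ψ i * ψ j * ω)
  symmetric : ∀ i j, M j i = M i j

/-- A matrix of size `n` whose entries are forms of the degrees `e i + f j` and of the characters
`ψ i φ j`. -/
structure Generic where
  n : ℕ
  s : ℕ
  s_lt : s < n
  M : Matrix (Fin n) (Fin n) (MvPolynomial (Fin N) k)
  e : Fin n → ℤ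
  f : Fin n → ℤ
  ψ : Fin n → G →* kˣ
  φ : Fin n → G →* kˣ
  d : Fin n → Fin n → ℕ
  degree : ∀ i j, (d i j : ℤ) = e i + f j
  form : ∀ i j, Form w α (M i j) (d i j) (ψ i * φ j)

/-- The Pfaffian of an alternating matrix of size 5 without the row and the column `i`. -/
def pf {R : Type} [CommRing R] (Y : Matrix (Fin 5) (Fin 5) R) (i : Fin 5) : R :=
  Y (i.succAbove 0) (i.succAbove 1) * Y (i.succAbove 2) (i.succAbove 3) -
    Y (i.succAbove 0) (i.succAbove 2) * Y (i.succAbove 1) (i.succAbove 3) +
    Y (i.succAbove 0) (i.succAbove 3) * Y (i.succAbove 1) (i.succAbove 2)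

/-- Forms in place of the coordinates `x, Y, z` of the cone over the spinor variety. The degrees
and the characters are such that the monomials of `x zᵢ - (-1)^i Pf_i(Y)` have the same degree and
character. -/
structure Spinor where
  x : MvPolynomial (Fin N) k
  Y : Matrix (Fin 5) (Fin 5) (MvPolynomial (Fin N) k)
  z : Fin 5 → MvPolynomial (Fin N) k
  dx : ℕ
  dy : Fin 5 → Fin 5 → ℕ
  dz : Fin 5 → ℕ
  χx : G →* kˣ
  χy : Fin 5 → Fin 5 → G →* kˣ
  χz : Fin 5 → G →* kˣ
  form_x : Form w α x dx χx
  form_Y : ∀ i j, i < j → Form w α (Y i j) (dy i j) (χy i j)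
  form_z : ∀ i, Form w α (z i) (dz i) (χz i)
  diag : ∀ i, Y i i = 0
  alternating : ∀ i j, Y j i = -Y i j
  degrees : ∀ i : Fin 5,
    dx + dz i = dy (i.succAbove 0) (i.succAbove 1) + dy (i.succAbove 2) (i.succAbove 3) ∧
    dx + dz i = dy (i.succAbove 0) (i.succAbove 2) + dy (i.succAbove 1) (i.succAbove 3) ∧
    dx + dz i = dy (i.succAbove 0) (i.succAbove 3) + dy (i.succAbove 1) (i.succAbove 2)
  characters : ∀ i : Fin 5,
    χx * χz i = χy (i.succAbove 0) (i.succAbove 1) * χy (i.succAbove 2) (i.succAbove 3) ∧
    χx * χz i = χy (i.succAbove 0) (i.succAbove 2) * χy (i.succAbove 1) (i.succAbove 3) ∧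
    χx * χz i = χy (i.succAbove 0) (i.succAbove 3) * χy (i.succAbove 1) (i.succAbove 2)

/-- Forms in place of the coordinates of the cone over the Cayley plane: the entries of three
matrices of size 3. The degrees and the characters are such that all monomials of the cubic form
`∑ det A_t - tr (A₀ A₁ A₂)` have the degree `D` and the character `Ξ`. -/
structure Cayley where
  A : Fin 3 → Matrix (Fin 3) (Fin 3) (MvPolynomial (Fin N) k)
  d : Fin 3 → Fin 3 → Fin 3 → ℕ
  D : ℕ
  χ : Fin 3 → Fin 3 → Fin 3 → G →* kˣ
  Ξ : G →* kˣ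
  form : ∀ t i j, Form w α (A t i j) (d t i j) (χ t i j)
  degree_det : ∀ t i j, d t i j + d t (i + 1) (j + 1) + d t (i + 2) (j + 2) = D ∧
    d t i j + d t (i + 1) (j + 2) + d t (i + 2) (j + 1) = D
  degree_trace : ∀ t i j l, d t i j + d (t + 1) j l + d (t + 2) l i = D
  character_det : ∀ t i j, χ t i j * χ t (i + 1) (j + 1) * χ t (i + 2) (j + 2) = Ξ ∧
    χ t i j * χ t (i + 1) (j + 2) * χ t (i + 2) (j + 1) = Ξ
  character_trace : ∀ t i j l, χ t i j * χ (t + 1) j l * χ (t + 2) l i = Ξ

/-- A tensor of order `m + 1` and size `n` whose entries are forms of the degrees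
`a 0 i₀ + ⋯ + a m iₘ` and of the characters `ψ 0 i₀ ⋯ ψ m iₘ`. -/
structure Tensor where
  m : ℕ
  n : ℕ
  n_pos : 0 < n
  M : (Fin (m + 1) → Fin n) → MvPolynomial (Fin N) k
  a : Fin (m + 1) → Fin n → ℤ
  ψ : Fin (m + 1) → Fin n → G →* kˣ
  d : (Fin (m + 1) → Fin n) → ℕ
  degree : ∀ I, (d I : ℤ) = ∑ j, a j (I j)
  form : ∀ I, Form w α (M I) (d I) (∏ j, ψ j (I j))

/-- Forms `y x` of the degrees `d x` in place of coordinates; equations `g` in the coordinates, which
are homogeneous for the degrees `d` and vanish on each of the `s` coordinate subspaces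
`{p | p x = 0 for x ∉ F a}`. The number `top` is the mean of the sums of the degrees of the
coordinates outside of `F a`. -/
structure Linear where
  K : Type
  fintype : Fintype K
  deceq : DecidableEq K
  y : K → MvPolynomial (Fin N) k
  d : K → ℕ
  χ : K → G →* kˣ
  form : ∀ x, Form w α (y x) (d x) (χ x)
  J : Type
  g : J → MvPolynomial K k
  homogeneous : ∀ j, ∃ m, IsWeightedHomogeneous d (g j) m
  s : ℕ
  s_pos : 0 < s
  F : Fin s → Finset K
  subspace : ∀ a j (p : K → k), (∀ x, x ∉ F a → p x = 0) → eval p (g j) = 0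
  top : ℤ
  top_eq : (s : ℤ) * top = ∑ a, ∑ x ∈ univ.filter (fun x => x ∉ F a), (d x : ℤ)

/-- a condition of one of the seven kinds -/
inductive Block
  | alternating (b : Alternating w α)
  | symmetric (b : Symmetric w α)
  | generic (b : Generic w α)
  | spinor (b : Spinor w α)
  | cayley (b : Cayley w α)
  | tensor (b : Tensor w α)
  | linear (b : Linear w α)

variable {w α}

/-- twice the contribution of the block to `a(R) + ∑ w i` -/
def Block.top2 : Block w α → ℤ
  | Block.alternating b => ((b.m : ℤ) - 1 - 2 * b.s) * (2 * ∑ i, b.e i + b.m * b.t)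
  | Block.symmetric b => ((b.m : ℤ) + 1 - 2 * b.s) * (2 * ∑ i, b.e i + b.m * b.t)
  | Block.generic b => 2 * (((b.n : ℤ) - b.s) * (∑ i, b.e i + ∑ j, b.f j))
  | Block.spinor b => b.dx + ∑ i, ∑ j ∈ univ.filter (fun j => i < j), (b.dy i j : ℤ) + ∑ i, (b.dz i : ℤ)
  | Block.cayley b => b.D + ∑ t, ∑ i, ∑ j, (b.d t i j : ℤ)
  | Block.tensor b => 2 * ((b.n : ℤ) ^ b.m - 1) * ∑ j, ∑ i, b.a j i
  | Block.linear b => 2 * b.top

/-- the condition at a point -/
def Block.Cond : Block w α → (Fin N → k) → Prop
  | Block.alternating b, p => (b.M.map (eval p)).rank ≤ 2 * b.s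
  | Block.symmetric b, p => (b.M.map (eval p)).rank ≤ 2 * b.s
  | Block.generic b, p => (b.M.map (eval p)).rank ≤ b.s
  | Block.spinor b, p => (∀ i : Fin 5, eval p b.x * eval p (b.z i) =
      (-1) ^ (i : ℕ) * pf (b.Y.map (eval p)) i) ∧ ∀ i, ∑ j, eval p (b.Y i j) * eval p (b.z j) = 0
  | Block.cayley b, p => ∀ t, ((b.A t).map (eval p)).adjugate =
      (b.A (t + 1)).map (eval p) * (b.A (t + 2)).map (eval p)
  | Block.tensor b, p => ∀ (I J : Fin (b.m + 1) → Fin b.n) (j : Fin (b.m + 1)),
      eval p (b.M I) * eval p (b.M J) =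
        eval p (b.M (Function.update I j (J j))) * eval p (b.M (Function.update J j (I j)))
  | Block.linear b, p => ∀ j, eval (fun x => eval p (b.y x)) (b.g j) = 0

end blocks

variable {k : Type} [Field k] {G : Type} [Group G] {N : ℕ}

/-- A polynomial ring with positive weights `w` and a diagonal action of `G`, conditions of the seven
kinds, and homogeneous equations `F j` which vanish at all points at which the conditions hold (for
instance the equations in the conditions themselves). -/
structure Datum (k : Type) [Field k] (G : Type) [Group G] (N : ℕ) (Λ : Type) where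
  w : Fin N → ℕ
  w_pos : ∀ i, 0 < w i
  α : Fin N → G →* kˣ
  block : Λ → Block w α
  J : Type
  F : J → MvPolynomial (Fin N) k
  δ : J → ℕ
  homogeneous : ∀ j, IsWeightedHomogeneous w (F j) (δ j)
  vanish : ∀ p : Fin N → k, (∀ l, (block l).Cond p) → ∀ j, eval p (F j) = 0

variable {Λ : Type}

namespace Datum

variable (D : Datum k G N Λ)

/-- the ideal of the equations -/
noncomputable def I : Ideal (MvPolynomial (Fin N) k) := Ideal.span (Set.range D.F)

/-- the cone over `Proj R` -/
def Cone : Set (Fin N → k) := {p | ∀ j, eval p (D.F j) = 0}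

/-- the automorphism `xᵢ ↦ α i g • xᵢ` of the polynomial ring -/
noncomputable def act (g : G) : MvPolynomial (Fin N) k →ₐ[k] MvPolynomial (Fin N) k :=
  Pool.Agent.TH144.NV.act fun i => (D.α i g : k)

/-- the class of `a` in `R` is a `G`-invariant form of degree `m` -/
def Inv (m : ℕ) (a : MvPolynomial (Fin N) k) : Prop :=
  IsWeightedHomogeneous D.w a m ∧
    ∀ g, Ideal.Quotient.mk D.I (D.act g a) = Ideal.Quotient.mk D.I a

/-- the space `(R_m)^G` of the classes of these forms -/
noncomputable def sections (m : ℕ) : Submodule k (MvPolynomial (Fin N) k ⧸ D.I) where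
  carrier := {q | ∃ a, D.Inv m a ∧ Ideal.Quotient.mk D.I a = q}
  add_mem' := by
    rintro _ _ ⟨a, ha, rfl⟩ ⟨b, hb, rfl⟩
    refine ⟨a + b, ⟨ha.1.add hb.1, fun g => ?_⟩, map_add _ _ _⟩
    rw [map_add, map_add, map_add, ha.2, hb.2]
  zero_mem' := ⟨0, ⟨isWeightedHomogeneous_zero _ _ _, fun g => by rw [map_zero]⟩, map_zero _⟩
  smul_mem' := by
    rintro c _ ⟨a, ha, rfl⟩
    refine ⟨c • a, ⟨?_, fun g => ?_⟩, ?_⟩
    · exact (mem_weightedHomogeneousSubmodule k D.w m _).1
        (Submodule.smul_mem _ c ((mem_weightedHomogeneousSubmodule k D.w m _).2 ha.1))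
    · rw [map_smul]
      have h1 := ha.2 g
      rw [Ideal.Quotient.eq] at h1 ⊢
      rw [← smul_sub, smul_eq_C_mul]
      exact Ideal.mul_mem_left _ _ h1
    · exact map_smul (Ideal.Quotient.mkₐ k D.I) c a

/-- At every point of `Proj R` invariant forms of some consecutive degrees `hm`, `h(m+1)` do not
vanish. This holds if `⨁ₘ (R_{hm})^G` is the section ring of an ample invertible sheaf. -/
def SectionRing (h : ℕ) : Prop :=
  ∀ p ∈ D.Cone, p ≠ 0 → ∃ (m : ℕ) (a b : MvPolynomial (Fin N) k),
    D.Inv (h * m) a ∧ D.Inv (h * (m + 1)) b ∧ eval p a ≠ 0 ∧ eval p b ≠ 0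

theorem eval_mem {p : Fin N → k} (hp : p ∈ D.Cone) {a : MvPolynomial (Fin N) k}
    (ha : a ∈ D.I) : eval p a = 0 := by
  have h1 : D.I ≤ RingHom.ker (eval p) := by
    rw [I, Ideal.span_le]
    rintro _ ⟨j, rfl⟩
    exact (RingHom.mem_ker).2 (hp j)
  exact (RingHom.mem_ker).1 (h1 ha)

theorem eval_inv {p : Fin N → k} (hp : p ∈ D.Cone) {m : ℕ} {a : MvPolynomial (Fin N) k}
    (ha : D.Inv m a) (g : G) : eval (fun i => (D.α i g : k) * p i) a = eval p a := by
  rw [← eval_act]
  have h1 := ha.2 g
  rw [Ideal.Quotient.eq] at h1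
  have h2 := D.eval_mem hp h1
  rw [map_sub, sub_eq_zero] at h2
  exact h2

/-- eigenvalues of fixed lines are `h`-th roots of unity -/
theorem pow_eq_one {h : ℕ} (hS : D.SectionRing h) {p : Fin N → k} (hp : p ∈ D.Cone)
    (hp0 : p ≠ 0) (g : G) (μ : kˣ) (hfix : ∀ i, (D.α i g : k) * p i = (μ : k) ^ D.w i * p i) :
    μ ^ h = 1 := by
  obtain ⟨m, a, b, ha, hb, ha0, hb0⟩ := hS p hp hp0
  have key : ∀ {m : ℕ} {a : MvPolynomial (Fin N) k}, D.Inv m a → eval p a ≠ 0 →
      (μ : k) ^ m = 1 := by
    intro m a ha ha0
    have h1 := D.eval_inv hp ha g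
    rw [show (fun i => (D.α i g : k) * p i) = fun i => (μ : k) ^ D.w i * p i from funext hfix,
      eval_wscale ha.1] at h1
    exact mul_right_cancel₀ ha0 (by rw [h1, one_mul])
  have h1 := key ha ha0
  have h2 := key hb hb0
  rw [mul_add, pow_add, h1, one_mul, mul_one] at h2
  ext
  simpa using h2

end Datum

theorem Block.exists_bd [CharZero k] {w : Fin N → ℕ} {α : Fin N → G →* kˣ} (b : Block w α) :
    Nonempty (Pool.Agent.R837.FQ.BD k G N w α b.top2 b.Cond) := by
  cases b with
  | alternating b =>
    exact Pool.Agent.N830.PS.exists_bd_alt (w := w) (α := α) b.s_lt b.M b.alternating b.diag b.e b.t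
      b.ψ b.ω (fun i j hij => by rw [← b.degree i j hij]; exact_mod_cast (b.form i j hij).pos)
      (fun i j hij d hd => by
        have h1 : d = b.d i j := by
          have := b.degree i j hij
          omega
        rw [h1]
        exact (b.form i j hij).homogeneous)
      (fun i j hij γ => (b.form i j hij).semi γ)
  | symmetric b =>
    exact Pool.Agent.N830.PS.exists_bd_sym (w := w) (α := α) b.s_lt b.odd b.M b.symmetric b.e b.t
      b.ψ b.ω (fun i j _ => by rw [← b.degree i j]; exact_mod_cast (b.form i j).pos)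
      (fun i j _ d hd => by
        have h1 : d = b.d i j := by
          have := b.degree i j
          omega
        rw [h1]
        exact (b.form i j).homogeneous)
      (fun i j _ γ => (b.form i j).semi γ)
  | generic b =>
    exact Pool.Agent.N830.PS.exists_bd_gen (w := w) (α := α) b.s_lt b.M b.e b.f
      b.ψ b.φ (fun i j => by rw [← b.degree i j]; exact_mod_cast (b.form i j).pos)
      (fun i j d hd => by
        have h1 : d = b.d i j := by
          have := b.degree i j
          omega
        rw [h1]
        exact (b.form i j).homogeneous)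
      (fun i j γ => (b.form i j).semi γ)
  | spinor b =>
    have hd : Pool.Agent.R837.FQ.Sp (fun c => Multiplicative.ofAdd
        ((Pool.Agent.R837.FQ.co b.dx b.dy b.dz c : ℕ) : ℤ)) := by
      have h1 := Pool.Agent.R837.FQ.sp_of (Multiplicative.ofAdd (b.dx : ℤ))
        (fun i j => Multiplicative.ofAdd (b.dy i j : ℤ)) (fun i => Multiplicative.ofAdd (b.dz i : ℤ))
        (by
          intro i
          obtain ⟨h1, h2, h3⟩ := b.degrees i
          simp only [← ofAdd_add, ← Nat.cast_add]
          rw [← h1, ← h2, ← h3]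
          exact ⟨rfl, rfl, rfl⟩)
      have h2 : (fun c => Multiplicative.ofAdd
        ((Pool.Agent.R837.FQ.co b.dx b.dy b.dz c : ℕ) : ℤ)) = _ := funext fun c =>
        Pool.Agent.R837.FQ.co_map (fun n : ℕ => Multiplicative.ofAdd (n : ℤ)) b.dx b.dy b.dz c
      rw [h2]
      exact h1
    have hχ := Pool.Agent.R837.FQ.sp_of b.χx b.χy b.χz b.characters
    have hform : ∀ c, Form w α (Pool.Agent.R837.FQ.co b.x (fun i j => b.Y i j) b.z c)
        (Pool.Agent.R837.FQ.co b.dx b.dy b.dz c) (Pool.Agent.R837.FQ.co b.χx b.χy b.χz c) := by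
      intro c
      fin_cases c
      · exact b.form_x
      · exact b.form_Y 0 1 (by decide)
      · exact b.form_Y 0 2 (by decide)
      · exact b.form_Y 0 3 (by decide)
      · exact b.form_Y 0 4 (by decide)
      · exact b.form_Y 1 2 (by decide)
      · exact b.form_Y 1 3 (by decide)
      · exact b.form_Y 1 4 (by decide)
      · exact b.form_Y 2 3 (by decide)
      · exact b.form_Y 2 4 (by decide)
      · exact b.form_Y 3 4 (by decide)
      · exact b.form_z 0
      · exact b.form_z 1
      · exact b.form_z 2
      · exact b.form_z 3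
      · exact b.form_z 4
    obtain ⟨bd⟩ := Pool.Agent.R837.FQ.exists_bd_sp (w := w) (α := α) _
      (fun c => (hform c).pos) hd _ hχ _ (fun c => (hform c).homogeneous)
      (fun γ c => (hform c).semi γ)
    have htop : ∑ c, ((Pool.Agent.R837.FQ.co b.dx b.dy b.dz c : ℕ) : ℤ) =
        (Block.spinor b).top2 := by
      simp only [Block.top2, Finset.sum_filter]
      rw [Fin.sum_univ_five (fun i => ∑ j, if i < j then (b.dy i j : ℤ) else 0)]
      simp only [Fin.sum_univ_five]
      simp [Fin.sum_univ_succ, Pool.Agent.R837.FQ.co]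
      ring
    rw [← htop]
    exact ⟨{ bd with
      rank := fun p hp => by
        have h1 := bd.rank p hp
        have h2 := Pool.Agent.R837.FQ.spinor_of_Qe (eval p b.x) (b.Y.map (eval p))
          (fun i => eval p (b.z i)) (fun i => by simp [b.diag i])
          (fun i j => by simp [b.alternating i j]) (by
            intro t i j
            have h3 := h1 t i j
            have h4 : (fun c => eval p (Pool.Agent.R837.FQ.co b.x (fun i j => b.Y i j) b.z c)) =
                Pool.Agent.R837.FQ.co (eval p b.x) (fun i j => (b.Y.map (eval p)) i j)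
                  (fun i => eval p (b.z i)) := funext fun c =>
              Pool.Agent.R837.FQ.co_map (eval p) b.x (fun i j => b.Y i j) b.z c
            rw [h4] at h3
            exact h3)
        exact h2 }⟩
  | cayley b =>
    have hdeg : Pool.Agent.R837.FQ.Wt (fun t i j => Multiplicative.ofAdd (b.d t i j : ℤ))
        (Multiplicative.ofAdd (b.D : ℤ)) := by
      refine ⟨fun t i j => ?_, fun t i j => ?_, fun t i j l => ?_⟩
      · simp only [← ofAdd_add, ← Nat.cast_add]
        rw [(b.degree_det t i j).1]
      · simp only [← ofAdd_add, ← Nat.cast_add]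
        rw [(b.degree_det t i j).2]
      · simp only [← ofAdd_add, ← Nat.cast_add]
        rw [b.degree_trace t i j l]
    obtain ⟨bd⟩ := Pool.Agent.R837.FQ.exists_bd_cay (w := w) (α := α) b.d b.D
      (fun t i j => (b.form t i j).pos) hdeg
      b.χ b.Ξ ⟨fun t i j => (b.character_det t i j).1, fun t i j => (b.character_det t i j).2,
        b.character_trace⟩ (fun t i j => b.A t i j) (fun t i j => (b.form t i j).homogeneous)
      (fun γ t i j => (b.form t i j).semi γ)
    exact ⟨{ bd with
      rank := fun p hp t => Pool.Agent.R837.FQ.adj_of_Qe (fun t => (b.A t).map (eval p))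
        (fun t i j => bd.rank p hp t i j) t }⟩
  | tensor b =>
    exact Pool.Agent.R837.FQ.exists_bd_segre (w := w) (α := α) b.n_pos b.a b.ψ b.M
      (fun I => by rw [← b.degree I]; exact_mod_cast (b.form I).pos)
      (fun I d hd => by
        have h1 : d = b.d I := by
          have := b.degree I
          omega
        rw [h1]
        exact (b.form I).homogeneous)
      (fun γ I => by
        rw [(b.form I).semi γ]
        simp)
  | linear b =>
    let _ := b.fintype
    let _ := b.deceq
    exact Pool.Agent.R837.FQ.exists_bd_lin (w := w) (α := α) b.d (fun x => (b.form x).pos) b.χ b.y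
      (fun x => (b.form x).homogeneous) (fun γ x => (b.form x).semi γ) b.g b.homogeneous b.s_pos
      b.F b.subspace b.top b.top_eq

namespace Datum

variable (D : Datum k G N Λ)

/-- an ideal generated by forms of degree at least two contains no forms of degree one -/
theorem eq_zero_of_mem (hδ : ∀ j, 2 ≤ D.δ j) {u : MvPolynomial (Fin N) k}
    (hu : IsWeightedHomogeneous D.w u 1) (hI : u ∈ D.I) : u = 0 := by
  have h2 : (Polynomial.X : Polynomial (MvPolynomial (Fin N) k)) ^ 2 ∣ φ D.w u := by
    have h3 : Ideal.span (Set.range D.F) ≤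
        Ideal.comap (φ D.w).toRingHom (Ideal.span {Polynomial.X ^ 2}) := by
      rw [Ideal.span_le]
      rintro _ ⟨j, rfl⟩
      rw [SetLike.mem_coe, Ideal.mem_comap, Ideal.mem_span_singleton]
      have h4 : (φ D.w).toRingHom (D.F j) = Polynomial.C (D.F j) * Polynomial.X ^ D.δ j :=
        φ_hom (D.homogeneous j)
      rw [h4]
      exact Dvd.dvd.mul_left (pow_dvd_pow _ (hδ j)) _
    have h4 := h3 hI
    rw [Ideal.mem_comap, Ideal.mem_span_singleton] at h4
    exact h4
  rw [φ_hom hu, pow_one, Polynomial.X_pow_dvd_iff] at h2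
  have h3 := h2 1 (by norm_num)
  simpa using h3

theorem finite_sections_one : FiniteDimensional k (D.sections 1) := by
  let π : MvPolynomial (Fin N) k →ₗ[k] (MvPolynomial (Fin N) k ⧸ D.I) :=
    (Ideal.Quotient.mkₐ k D.I).toLinearMap
  have h1 : FiniteDimensional k
      (Submodule.span k (Set.range (X : Fin N → MvPolynomial (Fin N) k))) :=
    FiniteDimensional.span_of_finite k (Set.finite_range _)
  have h3 : D.sections 1 ≤ Submodule.map π
      (Submodule.span k (Set.range (X : Fin N → MvPolynomial (Fin N) k))) := by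
    rintro _ ⟨a, ha, rfl⟩
    exact ⟨a, mem_span_X D.w_pos ha.1, rfl⟩
  exact Submodule.finiteDimensional_of_le h3

/-- variables of degree one are linearly independent in `R` -/
theorem card_le_finrank (hδ : ∀ j, 2 ≤ D.δ j) (T : Finset (Fin N))
    (hInv : ∀ i ∈ T, D.Inv 1 (X i)) : T.card ≤ Module.finrank k (D.sections 1) := by
  classical
  have hfin := D.finite_sections_one
  have hmem : ∀ c : {i // i ∈ T} → k,
      Ideal.Quotient.mk D.I (∑ i, c i • (X i.1 : MvPolynomial (Fin N) k))
        ∈ D.sections 1 := by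
    intro c
    rw [map_sum]
    refine Submodule.sum_mem _ (fun i _ => ?_)
    have h1 : Ideal.Quotient.mk D.I (c i • (X i.1 : MvPolynomial (Fin N) k))
        = c i • Ideal.Quotient.mk D.I (X i.1) := map_smul (Ideal.Quotient.mkₐ k D.I) _ _
    rw [h1]
    exact Submodule.smul_mem _ _ ⟨X i.1, hInv i.1 i.2, rfl⟩
  let F : ({i // i ∈ T} → k) →ₗ[k] D.sections 1 :=
    { toFun := fun c => ⟨Ideal.Quotient.mk D.I (∑ i, c i • (X i.1 : MvPolynomial (Fin N) k)),
        hmem c⟩
      map_add' := by
        intro c d
        apply Subtype.ext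
        simp only [Pi.add_apply, add_smul, Finset.sum_add_distrib, map_add]
        rfl
      map_smul' := by
        intro r' c
        apply Subtype.ext
        simp only [Pi.smul_apply, smul_eq_mul, mul_smul, ← Finset.smul_sum, RingHom.id_apply]
        exact map_smul (Ideal.Quotient.mkₐ k D.I) _ _ }
  have hF : Function.Injective F := by
    rw [injective_iff_map_eq_zero]
    intro c hc
    have h1 : Ideal.Quotient.mk D.I (∑ i, c i • (X i.1 : MvPolynomial (Fin N) k)) = 0 :=
      congrArg Subtype.val hc
    rw [Ideal.Quotient.eq_zero_iff_mem] at h1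
    have h2 : IsWeightedHomogeneous D.w (∑ i, c i • (X i.1 : MvPolynomial (Fin N) k)) 1 := by
      rw [← mem_weightedHomogeneousSubmodule]
      refine Submodule.sum_mem _ (fun i _ => Submodule.smul_mem _ _ ?_)
      rw [mem_weightedHomogeneousSubmodule]
      exact (hInv i.1 i.2).1
    have h3 := D.eq_zero_of_mem hδ h2 h1
    have h4 : LinearIndependent k (fun i : {i // i ∈ T} => (X i.1 : MvPolynomial (Fin N) k)) :=
      (linearIndependent_X (Fin N) k).comp _ Subtype.val_injective
    funext i
    exact (Fintype.linearIndependent_iff.1 h4) c h3 i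
  have h5 := LinearMap.finrank_le_finrank_of_injective hF
  simpa [Module.finrank_fintype_fun_eq_card, Fintype.card_coe] using h5

end Datum

open Classical in
theorem result [IsAlgClosed k] [CharZero k] [Finite G] [Fintype Λ] (D : Datum k G N Λ) {h : ℕ}
    (hh : 0 < h)
    -- no variable vanishes on the cone
    (hfull : ∀ i, ∃ p ∈ D.Cone, p i ≠ 0)
    -- the ring of the `(R_{hm})^G` is a section ring
    (hS : D.SectionRing h) :
    (∃ T : Finset (Fin N),
      2 * ∑ i, (D.w i : ℤ) ≤ ∑ l, (D.block l).top2 + 2 * ∑ i ∈ T, (D.w i : ℤ) ∧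
      ∀ i ∈ T, D.w i ∣ h ∧ D.Inv h (X i ^ (h / D.w i)) ∧
        ¬ IsNilpotent (Ideal.Quotient.mk D.I (X i ^ (h / D.w i)))) ∧
    (∑ l, (D.block l).top2 < 2 * ∑ i, (D.w i : ℤ) → ∃ s ∈ D.sections h, ¬ IsNilpotent s) ∧
    (h = 1 → (∀ j, 2 ≤ D.δ j) →
      2 * ∑ i, (D.w i : ℤ) - ∑ l, (D.block l).top2 ≤ 2 * Module.finrank k (D.sections 1)) := by
  have hmain := Pool.Agent.R837.FQ.total (k := k) D.w D.w_pos D.α h (fun l => (D.block l).top2)
    (fun l => (D.block l).Cond) (fun l => (D.block l).exists_bd.some) (by
      intro g μ hμ p hp hrk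
      by_contra hp0
      refine hμ (D.pow_eq_one hS (D.vanish p hrk) hp0 g μ (fun i => ?_))
      by_cases hi : p i = 0
      · rw [hi, mul_zero, mul_zero]
      · rw [hp i hi, Units.val_pow_eq_pow_val])
    (univ.filter fun i => ¬ Good h (D.w i) (D.α i)) (fun i => by simp)
  set T : Finset (Fin N) := univ.filter fun i => Good h (D.w i) (D.α i) with hT
  have hsum : 2 * ∑ i, (D.w i : ℤ) ≤ ∑ l, (D.block l).top2 + 2 * ∑ i ∈ T, (D.w i : ℤ) := by
    have h1 := Finset.sum_filter_add_sum_filter_not (univ : Finset (Fin N))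
      (fun i => Good h (D.w i) (D.α i)) (fun i => (D.w i : ℤ))
    rw [← hT] at h1
    linarith
  have hprop : ∀ i ∈ T, D.w i ∣ h ∧ D.Inv h (X i ^ (h / D.w i)) ∧
        ¬ IsNilpotent (Ideal.Quotient.mk D.I (X i ^ (h / D.w i))) := by
    intro i hi
    obtain ⟨hdvd, hα⟩ := ((Finset.mem_filter.1 hi).2).dvd (D.w_pos i)
    refine ⟨hdvd, ⟨?_, ?_⟩, ?_⟩
    · have h1 := (isWeightedHomogeneous_X k D.w i).pow (h / D.w i)
      rwa [smul_eq_mul, Nat.div_mul_cancel hdvd] at h1
    · intro g
      have h1 : D.act g (X i ^ (h / D.w i)) = X i ^ (h / D.w i) := by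
        rw [map_pow]
        show (Pool.Agent.TH144.NV.act (fun i => (D.α i g : k)) (X i)) ^ _ = _
        unfold Pool.Agent.TH144.NV.act
        rw [aeval_X, mul_pow, ← C_pow, ← Units.val_pow_eq_pow_val, hα g, Units.val_one, C_1,
          one_mul]
      rw [h1]
    · rintro ⟨m, hm⟩
      obtain ⟨p, hp, hpi⟩ := hfull i
      rw [← map_pow, Ideal.Quotient.eq_zero_iff_mem] at hm
      have := D.eval_mem hp hm
      rw [map_pow, map_pow, eval_X] at this
      exact hpi (eq_zero_of_pow_eq_zero (eq_zero_of_pow_eq_zero this))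
  refine ⟨⟨T, hsum, hprop⟩, ?_, ?_⟩
  · intro hlt
    have hne : T.Nonempty := by
      rw [Finset.nonempty_iff_ne_empty]
      intro h0
      rw [h0, Finset.sum_empty] at hsum
      omega
    obtain ⟨i, hi⟩ := hne
    exact ⟨_, ⟨_, (hprop i hi).2.1, rfl⟩, (hprop i hi).2.2⟩
  · rintro rfl hδ
    have hw1 : ∀ i ∈ T, D.w i = 1 := fun i hi => Nat.dvd_one.1 (hprop i hi).1
    have h1 := D.card_le_finrank hδ T (fun i hi => by
      have h2 := (hprop i hi).2.1
      rw [hw1 i hi] at h2
      simpa using h2)
    have h2 : ∑ i ∈ T, (D.w i : ℤ) = T.card := by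
      rw [Finset.sum_congr rfl (fun i hi => by rw [hw1 i hi, Nat.cast_one])]
      simp
    rw [h2] at hsum
    have h3 : (T.card : ℤ) ≤ Module.finrank k (D.sections 1) := by exact_mod_cast h1
    linarith

end Pool.Agent.Results.MP_954e53_ag.PfaffianAndSymmetricFormats
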